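import Mathlib
import Pool.Agent.H.MP_ca490d_an.B

set_option autoImplicit false

namespace Pool.Agent.Results.MP_ca490d_an.NotEquiv

open Pool.Agent.H.MP_ca490d_an

theorem result : ∀ c : NNReal, ∃ A : Set C(unitInterval, ℂ),
    Bornology.IsBounded A ∧ wk A ≤ 1 ∧ (c : ENNReal) * wk A < omega A :=
  main_C

end Pool.Agent.Results.MP_ca490d_an.NotEquiv
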